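import Mathlib
import Pool.Graph.R_seed8.W684.FM.Ambient
import Pool.Graph.R_seed8.Helper639.ForceCH
import Pool.Graph.R_pool_sql_team_8f841797.Results.MP_9098dd_gt.IndepOne

/-!
# MP_9098dd_gt, Q1: preservation of `S_1(𝒟_Ω, 𝒟_Ω)` under finite powers is independent of ZFC

* Some notion of forcing preserves all cardinals and forces Martin's axiom for `ℵ₁` dense sets (the
  forcing language is the one of `Pool.Agent.Helper669.Forcing`; `MartinHolds P Om1` is the set of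
  the conditions which force the sentence `MartinFor Om1`, `Om1` the ordinal `ω₁`).
* Some notion of forcing preserves `ω₁` and forces Jensen's principle `◊` (forcing language of
  `Pool.Agent.Helper639.ForceCH`).
* `MartinFor Om1` is equivalent to the usual form of Martin's axiom for `ℵ₁` dense sets.
* Under Martin's axiom for `ℵ₁` dense sets all finite powers of a space with
  `S_1(𝒟_Ω, 𝒟_Ω)` have this property.
* Under `◊` there is a Tychonoff space `X` with `S_1(𝒟_Ω, 𝒟_Ω)` such that `X²` does not have it.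
-/

set_option autoImplicit false

namespace Pool.Agent.Results.MP_9098dd_gt.IndependentOne

open Set Cardinal Pool.Agent.W684 Pool.Agent.W684.FM
open Pool.Agent.Helper669.Forcing (CardinalsPreserved)
open Pool.Agent.Helper639.ForceCH (Om DiamondHolds)

/-- The collection `𝒟_Ω`: families `𝒰` of open sets with dense union, such that `X` is not contained
in the closure of a member of `𝒰`, and for each finite family of nonempty open sets some member
of `𝒰` meets all of them. -/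
def DOmega {X : Type} [TopologicalSpace X] (𝒰 : Set (Set X)) : Prop :=
  ((∀ U ∈ 𝒰, IsOpen U) ∧ Dense (⋃₀ 𝒰)) ∧ (∀ U ∈ 𝒰, ¬ Set.univ ⊆ closure U) ∧
    ∀ F : Set (Set X), F.Finite → (∀ V ∈ F, IsOpen V ∧ V.Nonempty) →
      ∃ U ∈ 𝒰, ∀ V ∈ F, (U ∩ V).Nonempty

/-- `S_1(𝒟_Ω, 𝒟_Ω)`. -/
def SelOne (X : Type) [TopologicalSpace X] : Prop :=
  ∀ 𝒰 : ℕ → Set (Set X), (∀ n, DOmega (𝒰 n)) →
    ∃ U : ℕ → Set X, (∀ n, U n ∈ 𝒰 n) ∧ DOmega (range U)

/-- Martin's axiom for `ℵ₁` dense sets: a nonempty preordered set with no uncountable antichain has,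
for any family of at most `ℵ₁` dense subsets, a filter meeting all of them. -/
def MartinAlephOne : Prop :=
  ∀ (P : Type) (_ : Preorder P), Nonempty P →
    (∀ A : Set P, (∀ p ∈ A, ∀ q ∈ A, p ≠ q → ¬ ∃ r, r ≤ p ∧ r ≤ q) → A.Countable) →
    ∀ 𝒟 : Set (Set P), Cardinal.mk 𝒟 ≤ Cardinal.aleph 1 →
      (∀ D ∈ 𝒟, ∀ p, ∃ q ∈ D, q ≤ p) →
      ∃ G : Set P, G.Nonempty ∧ (∀ p ∈ G, ∀ q, p ≤ q → q ∈ G) ∧
        (∀ p ∈ G, ∀ q ∈ G, ∃ r ∈ G, r ≤ p ∧ r ≤ q) ∧ ∀ D ∈ 𝒟, (D ∩ G).Nonempty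

/-- `C` is a closed unbounded subset of `ω₁` (the sentence named by `IsClubName`). -/
def IsClubSet (C : Om → Prop) : Prop :=
  (∀ a : Om, ∃ b : Om, a < b ∧ C b) ∧
    ∀ a : Om, (∃ b, b < a) → (∀ b : Om, b < a → ∃ c : Om, (b < c ∧ c < a) ∧ C c) → C a

/-- Jensen's principle `◊`: the sentence which `DiamondHolds P` says is forced, evaluated in the
universe. -/
def Diamond : Prop :=
  ∃ A : Om → Om → Prop, ∀ S : Om → Prop, ∀ C : Om → Prop,
    IsClubSet C → ∃ a : Om, C a ∧ ∀ b : Om, b < a → (S b ↔ A a b)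

theorem martin_iff : MartinFor Om1 ↔ MartinAlephOne := by
  have h0 : #Om1 = ℵ₁ := mk_ord_toType _
  rw [martinFor_iff, h0]
  constructor
  · intro h P _ hn hc 𝒟 hD hd
    obtain ⟨G, h1, h2, h3, h4⟩ := h P (fun A hA => hc A hA) 𝒟 hD hd
    exact ⟨G, h1, h2, h3, fun D hD => by rw [Set.inter_comm]; exact h4 D hD⟩
  · intro h P _ _ hc 𝒟 hD hd
    obtain ⟨G, h1, h2, h3, h4⟩ := h P inferInstance inferInstance (fun A hA => hc A hA) 𝒟 hD hd
    exact ⟨G, h1, h2, h3, fun D hD => by rw [Set.inter_comm]; exact h4 D hD⟩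

theorem ma_of_martin (h : MartinAlephOne) : Pool.Agent.H30.Do.MA1 := by
  intro P _ _ hc 𝒟 hD hd
  obtain ⟨G, -, h1, h2, h3⟩ := h P inferInstance inferInstance
    (fun A hA => hc A fun p hp q hq hpq => hA p hp q hq hpq) 𝒟 hD hd
  exact ⟨G, fun p q hpq hp => h1 p hp q hpq, h2, fun D hD => by
    rw [Set.inter_comm]; exact h3 D hD⟩

theorem dia_of_diamond (h : Diamond) : Pool.Agent.H30.Dia.Diamond := by
  obtain ⟨A, hA⟩ := h
  refine ⟨fun a => {b | b < a ∧ A a b}, fun a b hb => hb.1, fun S C hC => ?_⟩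
  obtain ⟨a, h1, h2⟩ := hA (fun b => b ∈ S) (fun b => b ∈ C)
    ⟨fun a => (hC.1 a).imp fun c hc => ⟨hc.2, hc.1⟩, fun a h3 h4 => hC.2 a h3 fun b hb => by
      obtain ⟨c, hc, hc'⟩ := h4 b hb
      exact ⟨c, hc', hc.1, hc.2⟩⟩
  refine ⟨a, h1, ?_⟩
  ext b
  simp only [mem_inter_iff, mem_Iio, Set.mem_ofPred_eq]
  exact ⟨fun h => ⟨h.2, (h2 b h.2).1 h.1⟩, fun h => ⟨(h2 b h.1).2 h.2, h.1⟩⟩

/-- **Q1 is independent of ZFC.** -/
theorem result :
    (∃ (P : Type) (_ : Preorder P), Nonempty P ∧ ∀ p : P,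
      p ∈ CardinalsPreserved.{0, 0} P ∧ p ∈ Pool.Agent.W684.FM.OmegaOnePreserved P ∧
        p ∈ MartinHolds P Om1) ∧
    (∃ (P : Type) (_ : Preorder P), Nonempty P ∧ ∀ p : P,
      p ∈ Pool.Agent.Helper639.ForceCH.OmegaOnePreserved P ∧ p ∈ DiamondHolds P) ∧
    (MartinFor Om1 ↔ MartinAlephOne) ∧
    (MartinAlephOne → ∀ (X : Type) [TopologicalSpace X], SelOne X → ∀ k : ℕ, SelOne (Fin k → X)) ∧
    (Diamond → ∃ (X : Type) (_ : TopologicalSpace X), T35Space X ∧ SelOne X ∧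
      ¬ SelOne (Fin 2 → X)) := by
  have : Infinite Om1 := by
    rw [Cardinal.infinite_iff, Cardinal.mk_ord_toType]
    exact Cardinal.aleph0_le_aleph _
  refine ⟨exists_forcing Om1, ?_, martin_iff, ?_, ?_⟩
  · obtain ⟨P, i, hn, h⟩ := Pool.Agent.Helper639.ForceCH.exists_forcing
    exact ⟨P, i, hn, fun p => ⟨(h p).1, (h p).2.1⟩⟩
  · exact fun h X _ hX k => IndepOne.result.1 (ma_of_martin h) X hX k
  · exact fun h => IndepOne.result.2 (dia_of_diamond h)

end Pool.Agent.Results.MP_9098dd_gt.IndependentOne
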